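import Mathlib
import Pool.Agent.W_MP_52423f_h49.Conv

set_option autoImplicit false

/-! For a finite-dimensional algebra `D` with a faithful finite-dimensional module `T` of
dimension `n`: `D` is a division algebra if and only if every subspace of dimension at most `n`
of every finite-dimensional `D`-module is mapped injectively into `K ⊗ T` by every `D`-linear map
with coordinates in `K` outside the zero set of one nonzero polynomial over `k`. -/

namespace Pool.Agent.Results.MP_52423f_nt.GenericRank

open Module TensorProduct Pool.Agent.W_MP_52423f_h49

theorem result (k D T : Type) [Field k] [Infinite k] [Ring D] [Nontrivial D] [Algebra k D]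
    [FiniteDimensional k D] [AddCommGroup T] [Module k T] [Module D T] [IsScalarTower k D T]
    [FiniteDimensional k T] [FaithfulSMul D T] :
    (∀ x : D, x ≠ 0 → IsUnit x) ↔
      ∀ (V : Type) [AddCommGroup V] [Module k V] [Module D V] [IsScalarTower k D V]
        [FiniteDimensional k V] (N : ℕ) (φ : Basis (Fin N) k (V →ₗ[D] T))
        (m : ℕ) (w : Fin m → V), LinearIndependent k w → m ≤ finrank k T →
        ∃ F : MvPolynomial (Fin N) k, F ≠ 0 ∧
          ∀ (K : Type) [Field K] [Algebra k K] (x : Fin N → K), MvPolynomial.aeval x F ≠ 0 →
            LinearIndependent K (fun j => ∑ i, x i ⊗ₜ[k] φ i (w j)) := by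
  constructor
  · intro hD V _ _ _ _ _ N φ m w hw hm
    exact forward hD φ w hw hm
  · intro H x hx
    exact backward (k := k) (T := T)
      (fun r N φ w hw hr => H (Fin r → D) N φ r w hw hr) x hx

end Pool.Agent.Results.MP_52423f_nt.GenericRank
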